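import Pool.Agent.Helper19.HV.XS

/-!
# Project HV (MP_bae8ce_ag): module CA2
-/

set_option autoImplicit false

open Polynomial

namespace Pool.Agent.Helper19.HV

noncomputable section

open PL

private theorem ca2_exp {F : Type} [Field F] {φ : F4 F} (hφ : Frm φ) {y : RatFunc F} (h1 : Cal φ y)
    (a b c s : F) :
    φ (e y s) (e y a + e y b - e y c) (e y a + e y b - e y c) (e y a + e y b - e y c) =
      6 * Wf φ y a b c s := by
  have p1 : ∀ l m : F, φ (e y s) (e y l) (e y m) (e y l) = φ (e y s) (e y l) (e y l) (e y m) :=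
    fun l m => hφ.s23 _ _ _ _
  have p2 : ∀ l m : F, φ (e y s) (e y m) (e y l) (e y l) = φ (e y s) (e y l) (e y l) (e y m) :=
    fun l m => by rw [hφ.s12, hφ.s23]
  have p3 : ∀ l m n : F, φ (e y s) (e y m) (e y l) (e y n) = φ (e y s) (e y l) (e y m) (e y n) :=
    fun l m n => hφ.s12 _ _ _ _
  have p4 : ∀ l m n : F, φ (e y s) (e y l) (e y n) (e y m) = φ (e y s) (e y l) (e y m) (e y n) :=
    fun l m n => hφ.s23 _ _ _ _
  have q1 := (h1 a b s).1
  have q2 := (h1 b a s).1
  have q3 := (h1 c a s).1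
  have r1 := (h1 a b s).2.1
  have r2 := (h1 a c s).2.1
  have r3 := (h1 b c s).2.1
  have t1 := p4 a b c
  have t2 := p3 a b c
  have t3 : φ (e y s) (e y b) (e y c) (e y a) = φ (e y s) (e y a) (e y b) (e y c) := by
    rw [p4 b a c, p3 a b c]
  have t4 : φ (e y s) (e y c) (e y a) (e y b) = φ (e y s) (e y a) (e y b) (e y c) := by
    rw [p3 a c b, p4 a b c]
  have t5 : φ (e y s) (e y c) (e y b) (e y a) = φ (e y s) (e y a) (e y b) (e y c) := by
    rw [p4 c a b, t4]
  unfold Wf
  simp only [map_add, map_sub, LinearMap.add_apply, LinearMap.sub_apply]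
  linarith [p1 a b, p2 a b, p1 b a, p2 b a, p1 a c, p2 a c, p1 c a, p2 c a, p1 b c, p2 b c,
    p1 c b, p2 c b]

private theorem ca2_core {F : Type} [Field F] {φ : F4 F} (hφ : Frm φ) (w v : V (RatFunc F)) (k k' : F) :
    φ (w - lg (RatFunc.C k')) (v - lg (RatFunc.C k)) (v - lg (RatFunc.C k)) (v - lg (RatFunc.C k)) =
      φ w v v v := by
  have c1 := hφ.c1 k
  have c2 : ∀ w a b, φ w a (lg (RatFunc.C k)) b = 0 := fun w a b => by rw [hφ.s12, c1]
  have c3 : ∀ w a b, φ w a b (lg (RatFunc.C k)) = 0 := fun w a b => by rw [hφ.s23, c2]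
  have c0 := hφ.c0 k'
  simp only [map_sub, LinearMap.sub_apply, c0, c1, c2, c3, sub_zero]

/-- the involution relation -/
theorem mCA2 {F : Type} [Field F] {φ : F4 F} (hφ : Frm φ) {Y S : RatFunc F → Prop}
    (hC : Crd Y S) (hS : ∀ x, S x → Sv φ x) {y : RatFunc F} (hy : Y y) (h1 : Cal φ y)
    {a b c p : F} (hab : a ≠ b) (hac : a ≠ c) (hbc : b ≠ c) (hp : p ≠ c) :
    Wf φ y a b c p + Wf φ y a b c (c + (a - c) * (b - c) / (p - c)) = Wf φ y a b c c := by
  set q : F := c + (a - c) * (b - c) / (p - c) with hq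
  have hpc : p - c ≠ 0 := sub_ne_zero.2 hp
  have key : φ (e y p + e y q - e y c) (e y a + e y b - e y c) (e y a + e y b - e y c)
      (e y a + e y b - e y c) = 0 := by
    by_cases hpa : p = a
    · have hqb : q = b := by
        rw [hq, hpa, mul_comm, mul_div_assoc, div_self (sub_ne_zero.2 hac)]
        ring
      rw [hqb, hpa]
      exact hφ.diag _
    by_cases hpb : p = b
    · have hqa : q = a := by
        rw [hq, hpb, mul_div_assoc, div_self (sub_ne_zero.2 hbc)]
        ring
      rw [hqa, hpb, add_comm (e y b) (e y a)]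
      exact hφ.diag _
    have hk : (p - a) * (p - b) / (p - c) ≠ 0 :=
      div_ne_zero (mul_ne_zero (sub_ne_zero.2 hpa) (sub_ne_zero.2 hpb)) hpc
    set k : F := (p - a) * (p - b) / (p - c) with hkd
    have n : ∀ l : F, y - RatFunc.C l ≠ 0 := fun l => sub_ne_zero.2 (hC.nc y hy l)
    have hkc : (RatFunc.C k : RatFunc F) ≠ 0 := C_ne hk
    have e1 : p + q = k + a + b := by
      rw [hq, hkd]
      field_simp
      ring
    have e2 : p * q = k * c + a * b := by
      rw [hq, hkd]
      field_simp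
      ring
    have hX : Sv φ ((y - RatFunc.C a) * (y - RatFunc.C b) / (RatFunc.C k * (y - RatFunc.C c))) := by
      have h := hS _ (hC.sy y hy 1 (-(a + b)) (a * b) 0 k (-(k * c)))
      have e3 : (RatFunc.C 1 * y ^ 2 + RatFunc.C (-(a + b)) * y + RatFunc.C (a * b)) /
          (RatFunc.C 0 * y ^ 2 + RatFunc.C k * y + RatFunc.C (-(k * c))) =
          (y - RatFunc.C a) * (y - RatFunc.C b) / (RatFunc.C k * (y - RatFunc.C c)) := by
        congr 1
        · simp only [map_one, map_neg, map_add, map_mul]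
          ring
        · simp only [map_zero, map_neg, map_mul]
          ring
      rw [e3] at h
      exact h
    have e4 : 1 - (y - RatFunc.C a) * (y - RatFunc.C b) / (RatFunc.C k * (y - RatFunc.C c)) =
        -((y - RatFunc.C p) * (y - RatFunc.C q) / (RatFunc.C k * (y - RatFunc.C c))) := by
      have hd : RatFunc.C k * (y - RatFunc.C c) ≠ 0 := mul_ne_zero hkc (n c)
      rw [one_sub_div hd, ← neg_div]
      have e5 : (RatFunc.C p : RatFunc F) + RatFunc.C q = RatFunc.C k + RatFunc.C a + RatFunc.C b := by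
        rw [← map_add, e1, map_add, map_add]
      have e6 : (RatFunc.C p : RatFunc F) * RatFunc.C q =
          RatFunc.C k * RatFunc.C c + RatFunc.C a * RatFunc.C b := by
        rw [← map_mul, e2, map_add, map_mul, map_mul]
      congr 1
      linear_combination (-y) * e5 + e6
    unfold Sv at hX
    rw [e4, lg_neg, lg_div' (mul_ne_zero (n p) (n q)) (mul_ne_zero hkc (n c)),
      lg_div' (mul_ne_zero (n a) (n b)) (mul_ne_zero hkc (n c)), lg_mul (n p) (n q), lg_mul (n a) (n b),
      lg_mul hkc (n c)] at hX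
    have e7 : lg (y - RatFunc.C p) + lg (y - RatFunc.C q) - (lg (RatFunc.C k) + lg (y - RatFunc.C c)) =
        (e y p + e y q - e y c) - lg (RatFunc.C k) := by
      unfold e
      abel
    have e8 : lg (y - RatFunc.C a) + lg (y - RatFunc.C b) - (lg (RatFunc.C k) + lg (y - RatFunc.C c)) =
        (e y a + e y b - e y c) - lg (RatFunc.C k) := by
      unfold e
      abel
    rw [e7, e8, ca2_core hφ] at hX
    exact hX
  have g1 := ca2_exp hφ h1 a b c p
  have g2 := ca2_exp hφ h1 a b c q
  have g3 := ca2_exp hφ h1 a b c c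
  have g4 : φ (e y p + e y q - e y c) = φ (e y p) + φ (e y q) - φ (e y c) := by
    rw [map_sub, map_add]
  rw [g4] at key
  generalize e y a + e y b - e y c = v at key g1 g2 g3
  rw [LinearMap.sub_apply, LinearMap.add_apply, LinearMap.sub_apply, LinearMap.add_apply,
    LinearMap.sub_apply, LinearMap.add_apply, g1, g2, g3] at key
  linarith

end

end Pool.Agent.Helper19.HV
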